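import Mathlib
import Pool.Agent.Helper598.Parallel

set_option autoImplicit false

namespace Pool.Agent.Results.MP_471f68_co.TwoDConnected

/-- The normal `(a_j 0, ..., a_j (d-2), 1)` of the face `j`, a vector with `d` entries. -/
def normal (d : ℕ) {F : Type} (a : F → Fin (d - 1) → ℝ) (j : F) (k : Fin d) : ℝ :=
  if h : (k : ℕ) < d - 1 then a j ⟨k, h⟩ else 1

/-- The row of the pair `e = (i, j)` in the parallel `d`-scene matrix. Columns: one for each face
(the unknown `D^j`) and `d` for each vertex. The row has entry `1` in column `D^j`, the normal of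
`j` in the columns of the vertex `i`, and `0` elsewhere. -/
def sceneRow (d : ℕ) {V F : Type} [DecidableEq V] [DecidableEq F] (a : F → Fin (d - 1) → ℝ)
    (e : V × F) : F ⊕ (V × Fin d) → ℝ :=
  Sum.elim (fun j => if j = e.2 then 1 else 0)
    (fun q => if q.1 = e.1 then normal d a e.2 q.2 else 0)

/-- Rank of a set of pairs in the row matroid of the parallel `d`-scene matrix at the normals
given by `a`. -/
noncomputable def sceneRank (d : ℕ) {V F : Type} [DecidableEq V] [DecidableEq F]
    (a : F → Fin (d - 1) → ℝ) (S : Set (V × F)) : ℕ :=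
  Module.finrank ℝ (Submodule.span ℝ (sceneRow d a '' S))

/-- The bipartite incidence graph of a set `I` of pairs. -/
def incidenceGraph {V F : Type} (I : Finset (V × F)) : SimpleGraph (V ⊕ F) :=
  SimpleGraph.fromRel (fun x y => ∃ e ∈ I, x = Sum.inl e.1 ∧ y = Sum.inr e.2)

/-- `k`-vertex-connectivity: more than `k` vertices, and connected after deleting any fewer than
`k` vertices. -/
def VertexConnected (k : ℕ) {W : Type} [Fintype W] (G : SimpleGraph W) : Prop :=
  k < Fintype.card W ∧
    ∀ X : Finset W, X.card < k → (G.induce ((↑X : Set W)ᶜ)).Connected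

/-- column bijection -/
def colEquiv (V F : Type) (n : ℕ) : F ⊕ (V × Option (Fin n)) ≃ F ⊕ (V × Fin (n + 1)) :=
  Equiv.sumCongr (Equiv.refl F) (Equiv.prodCongr (Equiv.refl V) finSuccEquivLast.symm)

lemma sceneRow_col (n : ℕ) {V F : Type} [DecidableEq V] [DecidableEq F]
    (a : F → Fin n → ℝ) (e : V × F) (c : F ⊕ (V × Option (Fin n))) :
    sceneRow (n + 1) a e (colEquiv V F n c) = Pool.Agent.Helper598.Parallel.row a e c := by
  rcases c with j | ⟨i, _ | k⟩
  · rfl
  · simp [sceneRow, colEquiv, normal]
  · simp [sceneRow, colEquiv, normal]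

lemma rank_eq (n : ℕ) {V F : Type} [DecidableEq V] [DecidableEq F]
    (a : F → Fin n → ℝ) (S : Set (V × F)) :
    Module.finrank ℝ (Submodule.span ℝ
      ((fun e => Pool.Agent.Helper598.Parallel.row a e) '' S))
      = sceneRank (n + 1) a S :=
  Pool.Agent.Helper598.Parallel.finrank_reindex (colEquiv V F n) _ _ (sceneRow_col n a) S

/-- Sanity check: generic normals exist. -/
theorem exists_generic (d : ℕ) (F : Type) [Fintype F] :
    ∃ a : F → Fin (d - 1) → ℝ,
      AlgebraicIndependent ℚ (fun q : F × Fin (d - 1) => a q.1 q.2) := by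
  classical
  obtain ⟨s, hs⟩ := exists_isTranscendenceBasis ℚ ℝ
  have hinf : Infinite s := by
    by_contra hfin
    rw [not_infinite_iff_finite] at hfin
    have halg := hs.isAlgebraic
    have h1 := Algebra.IsAlgebraic.cardinalMk_le_max
      (Algebra.adjoin ℚ (Set.range ((↑) : s → ℝ))) ℝ
    have h2 : Cardinal.mk (Algebra.adjoin ℚ (Set.range ((↑) : s → ℝ))) ≤ Cardinal.aleph0 := by
      rw [← Cardinal.mk_congr hs.1.aevalEquiv.toEquiv]
      refine le_trans MvPolynomial.cardinalMk_le_max ?_
      simp
    have h3 : Cardinal.mk ℝ ≤ Cardinal.aleph0 := le_trans h1 (max_le h2 le_rfl)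
    rw [Cardinal.mk_real] at h3
    exact absurd h3 (not_le.2 Cardinal.aleph0_lt_continuum)
  obtain ⟨f, hf⟩ : ∃ f : F × Fin (d - 1) → s, Function.Injective f := by
    have := Infinite.natEmbedding s
    have e := Fintype.equivFin (F × Fin (d - 1))
    exact ⟨fun q => this (e q), fun q q' h => e.injective (Fin.val_injective (this.injective h))⟩
  refine ⟨fun j c => (f (j, c) : ℝ), ?_⟩
  have := hs.1.comp f hf
  exact this

/-- For every `d ≥ 2` and every incidence structure whose incidence graph is
`2d`-vertex-connected, the incidences have full rank in the generic `d`-parallel matroid. -/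
theorem result (d : ℕ) (_hd : 2 ≤ d) (V F : Type) [Fintype V] [Fintype F] [DecidableEq V]
    [DecidableEq F] (I : Finset (V × F)) (hI : VertexConnected (2 * d) (incidenceGraph I))
    (a : F → Fin (d - 1) → ℝ)
    (ha : AlgebraicIndependent ℚ (fun q : F × Fin (d - 1) => a q.1 q.2)) :
    sceneRank d a (↑I : Set (V × F)) = sceneRank d a (Set.univ : Set (V × F)) := by
  obtain ⟨n, rfl⟩ : ∃ n, d = n + 1 := ⟨d - 1, by omega⟩
  obtain ⟨hcard, hconn⟩ := hI
  rw [Fintype.card_sum] at hcard
  have hcard' : 1 < Fintype.card V + Fintype.card F := by omega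
  have hconn' : ∀ X : Finset (V ⊕ F), X.card < 2 * (Fintype.card (Fin n) + 1) →
      ((Pool.Agent.Helper598.Parallel.IG I).induce ((↑X : Set (V ⊕ F))ᶜ)).Connected := by
    intro X hX
    rw [Fintype.card_fin] at hX
    exact hconn X hX
  have hV : Nonempty V :=
    Pool.Agent.Helper598.Parallel.conn_nonempty_V I hcard' (hconn' ∅ (by simp))
  have hlow := Pool.Agent.Helper598.Parallel.conn_algInd (κ := Fin n) I hcard' hconn' a ha
  have hup := Pool.Agent.Helper598.Parallel.upper_bound (κ := Fin n) a
    (Set.univ : Set (V × F))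
  rw [rank_eq] at hlow hup
  apply le_antisymm
  · apply Submodule.finrank_mono
    exact Submodule.span_mono (Set.image_mono (Set.subset_univ _))
  · exact Nat.le_of_add_le_add_right (le_trans hup hlow)

end Pool.Agent.Results.MP_471f68_co.TwoDConnected
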